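import Pool.Agent.H33.NC.D
import Pool.Agent.H33.NC.E

set_option autoImplicit false

/-! # The number of the cycles of the `3x+d` maps near the origin

(1) There is ONE constant `C` such that for all odd `d` prime to `3` and all `X ≥ |d|` at most

  `C (|d| / log (|d| + 1)) (X / |d|) ^ 0.998`

cycles of `T_d` have an element in `[-X, X]`.

(2) Up to the factor `(log d) ^ (1/2)` this is the right order for `X = d`: for `d = 4 ^ m - 3 ^ m`, `m ≥ 2`,
at least `d / (8 (log d) ^ (3/2))` cycles of `T_d` have an element in `[-d, d]`, and every finite set which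
is met by all orbits has at least so many elements.

(3) For almost all `d` there are much fewer: for `0 < η ≤ 1` and all large `X`, for all but `η X` of the
odd `d ≤ X` at most `d ^ (1 - η / 1000)` cycles of `T_d` have an element in `[-d, d]`.

Proof. (1) The parities of the first `n` elements of an orbit determine the starting point modulo `2 ^ n`.
As long as an orbit is outside `[-100 y, 100 y]`, where `y ≥ |d|`, the square root of the elements
decreases by the factor `0.97` in the mean over the two parities; so for `2 ^ n ≤ y` all but `O(y 0.992 ^ n)`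
of the integers of `[-100 y, 100 y]` return to this interval at least `n / 10` times in `n` steps. A cycle
with an element in `[-y, y]` has less than `2 n` elements (there are at most `4 ^ n` such cycles, one for
each word of parities), or it contains one of the exceptional integers, or it has at least `n / 20`
elements in `[-100 y, 100 y]`. For the cycles without element in `[-y, y]` one counts only the integers whose
orbits stay above `y`. (2) The integers `N(w) = ∑ 3 ^ (j - 1 - i) 2 ^ (a_i)`, where `a_0 < ... < a_(j-1)` are the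
places of the ones of a word `w` of length `p`, are permuted by `T_d`, `d = 2 ^ p - 3 ^ j`, as the words are
by the rotation. (3) For most `d` the cycles with at most `d ^ (η / 168)` elements come from the divisors of
`d` which are less than `d ^ (1/4)`; the long cycles have many elements in `[-100 d, 100 d]`. -/

namespace Pool.Agent.Results.MP_d0d59f_nt.CyclesNearTheOrigin

/-- The `3x+d` map on the integers. -/
def T (d x : ℤ) : ℤ := if x % 2 = 0 then x / 2 else (3 * x + d) / 2

/-- `Z` is a cycle of `T_d`: the orbit of some `x` with `T_d ^ p x = x`, `p ≥ 1`. -/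
def IsCycle (d : ℤ) (Z : Set ℤ) : Prop :=
  ∃ (x : ℤ) (p : ℕ), 1 ≤ p ∧ (T d)^[p] x = x ∧ Z = {z | ∃ i : ℕ, z = (T d)^[i] x}

/-- The set of the cycles of `T_d` which have an element in `[-X, X]`. -/
def Near (d : ℤ) (X : ℝ) : Set (Set ℤ) := {Z | IsCycle d Z ∧ ∃ z ∈ Z, |(z : ℝ)| ≤ X}

/-- **The number of the cycles of the `3x+d` maps near the origin.** -/
theorem result :
    (∃ C : ℝ, 0 < C ∧ ∀ d : ℤ, d % 2 = 1 → ¬ (3 : ℤ) ∣ d → ∀ X : ℝ, |(d : ℝ)| ≤ X →
      (Near d X).Finite ∧ ((Near d X).ncard : ℝ) ≤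
        C * (|(d : ℝ)| / Real.log (|(d : ℝ)| + 1)) * (X / |(d : ℝ)|) ^ (0.998 : ℝ)) ∧
    (∀ (m : ℕ) (d : ℤ), 2 ≤ m → d = 4 ^ m - 3 ^ m →
      (d : ℝ) / (8 * Real.log d ^ (3 / 2 : ℝ)) ≤ ((Near d d).ncard : ℝ) ∧
      ∀ F : Finset ℤ, (∀ x : ℤ, ∃ k : ℕ, (T d)^[k] x ∈ F) →
        (d : ℝ) / (8 * Real.log d ^ (3 / 2 : ℝ)) ≤ (F.card : ℝ)) ∧
    (∀ η : ℝ, 0 < η → η ≤ 1 → ∃ X₀ : ℕ, ∀ X : ℕ, X₀ ≤ X →
      ({d : ℕ | d ≤ X ∧ d % 2 = 1 ∧
        (d : ℝ) ^ (1 - η / 1000) < ((Near d d).ncard : ℝ)}.ncard : ℝ) ≤ η * X) := by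
  refine ⟨Pool.Agent.H33.NC.upper, ?_, ?_⟩
  · intro m d hm hd
    have h1 := Pool.Agent.H33.NC.lower hm
    have e : (4 : ℝ) ^ m - 3 ^ m = (d : ℝ) := by rw [hd]; push_cast; ring
    rw [e, ← hd] at h1
    refine ⟨h1, fun F hF => h1.trans ?_⟩
    have h2 := Pool.Agent.H33.NC.attracting (d := d) (d : ℝ) F hF (Pool.Agent.H33.NC.near_finite _)
    exact_mod_cast h2
  · intro η hη hη1
    classical
    obtain ⟨X₀, h⟩ := Pool.Agent.H33.NC.typical hη hη1
    refine ⟨X₀, fun X hX => ?_⟩
    refine le_trans (le_of_eq ?_) (h X hX)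
    rw [← Set.ncard_coe_finset]
    congr 2
    ext d
    simp only [Finset.coe_filter, Finset.mem_Icc, Set.mem_ofPred_eq]
    constructor
    · rintro ⟨h1, h2, h3⟩
      exact ⟨⟨by omega, h1⟩, h2, h3⟩
    · rintro ⟨⟨-, h1⟩, h2, h3⟩
      exact ⟨h1, h2, h3⟩

end Pool.Agent.Results.MP_d0d59f_nt.CyclesNearTheOrigin
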