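import Mathlib
import Pool.Agent.H15.Cx.Unif

set_option autoImplicit false

/-!
The elements of the cycles of the maps `3x+d` of low word complexity and bounded (or polynomially
bounded) oscillation are bounded by a power of `d`, uniformly in `d`.
-/

namespace Pool.Agent.Results.MP_d0d59f_nt.LowComplexity

/-- The map `T_d`. -/
def T (d x : ℤ) : ℤ := if x % 2 = 0 then x / 2 else (3 * x + d) / 2

/-- `Z` is a cycle of `f`: `Z = {x, f x, ..., f^(p-1) x}` with `p ≥ 1` and `f^p x = x`. -/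
def IsCycle (f : ℤ → ℤ) (Z : Finset ℤ) : Prop :=
  ∃ x : ℤ, ∃ p : ℕ, 1 ≤ p ∧ f^[p] x = x ∧ Z = (Finset.range p).image (fun i => f^[i] x)

/-- The parities of `x, f x, ..., f^(L-1) x`. -/
def word (f : ℤ → ℤ) (L : ℕ) (x : ℤ) : List ℤ := (List.range L).map fun i => f^[i] x % 2

/-- The parity words of length `L` which can be read along `Z`. -/
def words (f : ℤ → ℤ) (Z : Finset ℤ) (L : ℕ) : Finset (List ℤ) := Z.image (word f L)

/-- Let `0 ≤ h < 1`, `A, κ ≥ 0` and `η = h (A + 13 κ / (1 - h)) < 1`. For every `B` there is a `C` such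
that the following holds for every odd `d`. If `Z` is a cycle of `T_d` with at most `B 2^(h L)` different
parity words of length `L`, for all `L`, and `|x| ≤ B |Z|^A |y|^κ` for all `x`, `y` in `Z`, then
`|x| ≤ C |d|^(κ / ((1 - h) (1 - η)))` for all `x` in `Z`. -/
theorem result (h A κ B : ℝ) (h0 : 0 ≤ h) (h1 : h < 1) (hA : 0 ≤ A) (hκ : 0 ≤ κ)
    (hη : h * (A + 13 * κ / (1 - h)) < 1) :
    ∃ C : ℝ, ∀ d : ℤ, d % 2 = 1 → ∀ Z : Finset ℤ, IsCycle (T d) Z →
      (∀ x ∈ Z, ∀ y ∈ Z, |(x : ℝ)| ≤ B * (Z.card : ℝ) ^ A * |(y : ℝ)| ^ κ) →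
      (∀ L : ℕ, ((words (T d) Z L).card : ℝ) ≤ B * 2 ^ (h * L)) →
      ∀ x ∈ Z, |(x : ℝ)| ≤ C * |(d : ℝ)| ^ (κ / ((1 - h) * (1 - h * (A + 13 * κ / (1 - h))))) :=
  Pool.Agent.H15.Cx.unif h A κ B h0 h1 hA hκ hη

end Pool.Agent.Results.MP_d0d59f_nt.LowComplexity
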