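import Pool.Agent.H33.PD.C

set_option autoImplicit false

/-! # The `3x+d` orbits of almost all primes enter `[-A|d|, A|d|]`, uniformly in `d`

For all odd `d` prime to `3` the orbits of almost all integers enter an interval `[-y, y]` with
`y = O(|d|)`; this says nothing about thin sets like the primes. The theorem: for every
`c < (1 - H(log_3 2)) / 3 = 0.0166...` (`H` the binary entropy in bits) and every `δ > 0` there is ONE
constant `C` such that for ALL odd `d` prime to `3`, both signs `s`, all `N ≥ 2` with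
`|d| ≤ N ^ (1 - δ)` and all `y > 0`, at most

  `C * (|d| / φ(|d|)) * π(N) * (|d| / y) ^ c`

of the primes `p ≤ N` are such that the `3x+d` orbit of `s p` has no element in `[-y, y]`.

So the finite set `F_d = {x : |x| ≤ A |d| (|d| / φ(|d|)) ^ (1 / c)}` is met by the orbits of `p` and of
`-p` for all but a small proportion of the primes `p ≤ N`, for all `N ≥ |d| ^ (1 + δ)`.

Method: the orbits of `x` and of `x + d h` coalesce within `k` steps except with probability
`O(√(θ (1 + log(1/θ))))` for all `|h| ≤ 2 ^ (θ k)`, and this depends only on `x` modulo `2 ^ k`, so that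
the upper bound sieve in the classes modulo `2 ^ k` applies; hence for almost all primes `p` whose orbit
stays above `y` most of the integers of a long block of the class of `p` modulo `d` have orbits which
stay above `y`; the upper bound sieve in these blocks and the bound for the number of all
integers whose orbit stays above `y` (uniform in `d`) give the theorem. -/

namespace Pool.Agent.Results.MP_d0d59f_nt.PrimesUniformInD

/-- the `3x+d` map on the integers -/
def T (d x : ℤ) : ℤ := if x % 2 = 0 then x / 2 else (3 * x + d) / 2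

/-- The number of the primes `p ≤ N` such that all elements of the orbit of `s p` under the `3x+d` map
are larger than `y` in absolute value. -/
noncomputable def high (d s : ℤ) (y : ℝ) (N : ℕ) : ℕ :=
  {p : ℕ | p.Prime ∧ p ≤ N ∧ ∀ k : ℕ, y < |(((T d)^[k] (s * (p : ℤ)) : ℤ) : ℝ)|}.ncard

open Classical in
theorem high_eq (d : ℤ) (y : ℝ) (N : ℕ) :
    high d 1 y N = (((Finset.Icc 1 N).filter
      (fun p : ℕ => p.Prime ∧ Pool.Agent.H33.PD.Sd d y ((p : ℕ) : ℤ))).card) := by
  unfold high
  rw [← Set.ncard_coe_finset]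
  congr 1
  ext p
  simp only [Set.mem_ofPred_eq, Finset.coe_filter, Finset.mem_Icc, one_mul]
  constructor
  · rintro ⟨h1, h2, h3⟩
    exact ⟨⟨h1.one_lt.le, h2⟩, h1, h3⟩
  · rintro ⟨⟨_, h2⟩, h1, h3⟩
    exact ⟨h1, h2, h3⟩

theorem high_neg {d : ℤ} (hd : d % 2 = 1) (y : ℝ) (N : ℕ) : high d (-1) y N = high (-d) 1 y N := by
  unfold high
  congr 1
  ext p
  have h := Pool.Agent.H33.PD.Sd_neg hd y (p : ℤ)
  have e1 : (-1 : ℤ) * (p : ℤ) = -(p : ℤ) := neg_one_mul _
  have e2 : (1 : ℤ) * (p : ℤ) = (p : ℤ) := one_mul _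
  simp only [Set.mem_ofPred_eq]
  rw [e1, e2]
  constructor
  · rintro ⟨h1, h2, h3⟩
    exact ⟨h1, h2, h.1 h3⟩
  · rintro ⟨h1, h2, h3⟩
    exact ⟨h1, h2, h.2 h3⟩

/-- The `3x+d` maps on the primes: a power saving in `y / |d|`, uniformly in `d`, in the sign and in the
range of the primes. -/
theorem result :
    0.016 < (1 - Real.binEntropy (Real.log 2 / Real.log 3) / Real.log 2) / 3 ∧
    ∀ c δ : ℝ, 0 < c → c < (1 - Real.binEntropy (Real.log 2 / Real.log 3) / Real.log 2) / 3 →
      0 < δ → ∃ C : ℝ, 0 < C ∧ ∀ d : ℤ, Odd d → ¬ (3 : ℤ) ∣ d → ∀ s : ℤ, s = 1 ∨ s = -1 →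
        ∀ N : ℕ, 2 ≤ N → |(d : ℝ)| ≤ (N : ℝ) ^ (1 - δ) → ∀ y : ℝ, 0 < y →
          (high d s y N : ℝ) ≤ C * (|(d : ℝ)| / Nat.totient d.natAbs) * Nat.primeCounting N *
            (|(d : ℝ)| / y) ^ c := by
  have hb := Pool.Agent.H319R2.beta_lt
  refine ⟨?_, ?_⟩
  · have h1 : Real.binEntropy (Real.log 2 / Real.log 3) / Real.log 2 = Pool.Agent.H319R2.beta := rfl
    rw [h1]
    linarith
  intro c δ hc0 hc hδ
  by_cases hδ1 : δ ≤ 1
  · obtain ⟨C, hC, h⟩ := Pool.Agent.H33.PD.primes_d' hc0 hc hδ hδ1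
    refine ⟨C, hC, fun d hd h3 s hs N hN hdN y hy => ?_⟩
    have habs : ((d.natAbs : ℕ) : ℝ) = |(d : ℝ)| := by
      rw [Nat.cast_natAbs]; push_cast; rfl
    have hd' : d % 2 = 1 := Int.odd_iff.1 hd
    rw [← habs] at hdN ⊢
    rcases hs with rfl | rfl
    · rw [high_eq]
      exact h d hd' h3 N y hN hy hdN
    · rw [high_neg hd', high_eq]
      have h1 := h (-d) (by omega) (by rwa [dvd_neg]) N y hN hy (by rwa [Int.natAbs_neg])
      rwa [Int.natAbs_neg] at h1
  · refine ⟨1, one_pos, fun d hd h3 s hs N hN hdN y hy => ?_⟩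
    exfalso
    push Not at hδ1
    have hd0 : d ≠ 0 := by rintro rfl; simp at hd
    have h1 : (1 : ℝ) ≤ |(d : ℝ)| := by exact_mod_cast Int.one_le_abs hd0
    have h2 : (N : ℝ) ^ (1 - δ) < 1 := by
      apply Real.rpow_lt_one_of_one_lt_of_neg
      · exact_mod_cast (by omega : 1 < N)
      · linarith
    linarith

end Pool.Agent.Results.MP_d0d59f_nt.PrimesUniformInD
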